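import Pool.Agent.W196.Nd.Sq

/-! ND-CH3: the children of a node of type false. -/

set_option autoImplicit false

open Set Pool.Agent.W811.Stu Pool.Agent.W811.Nd

namespace Pool.Agent.W196.Nd

lemma y_succ {d : ℕ → ℕ} {m : ℕ} (p : P3) (h : d m = 3) :
    (orb d p (m + 1)).y = (4 * (orb d p m).y ^ 2 - 1) * (orb d p m).x -
      2 * (orb d p m).y * (orb d p m).z := by
  rw [orb_succ_y, h, tf_rec, tf_rec, tf_one, tf_zero]
  ring

lemma x_succ {d : ℕ → ℕ} {m : ℕ} (p : P3) (h : d m = 3) :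
    (orb d p (m + 1)).x = (8 * (orb d p m).y ^ 3 - 4 * (orb d p m).y) * (orb d p m).x -
      (4 * (orb d p m).y ^ 2 - 1) * (orb d p m).z := by
  rw [orb_succ_x, h, tf_rec, tf_rec, tf_rec, tf_one, tf_zero]
  ring

/-- size of `x` -/
lemma x_size {δ : ℝ} {p : P3} (hδ : 5 * 10 ^ 7 ≤ δ) (hS : OnS δ p) (hy : |p.y| ≤ 1)
    (hz : |p.z| ≤ 1) : δ - 1 ≤ |p.x| ∧ |p.x| ≤ δ + 2 := by
  unfold OnS at hS
  have hy2 : p.y ^ 2 ≤ 1 := by rw [← sq_abs]; nlinarith [abs_nonneg p.y]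
  have hz2 : p.z ^ 2 ≤ 1 := by rw [← sq_abs]; nlinarith [abs_nonneg p.z]
  have e : (p.x - p.y * p.z) ^ 2 = δ ^ 2 + (1 - p.y ^ 2) * (1 - p.z ^ 2) := by
    linear_combination hS
  have hyz : |p.y * p.z| ≤ 1 := by
    rw [abs_mul]; nlinarith [abs_nonneg p.y, abs_nonneg p.z]
  have h1 : 0 ≤ (1 - p.y ^ 2) * (1 - p.z ^ 2) := by
    apply mul_nonneg <;> linarith
  have h2 : (1 - p.y ^ 2) * (1 - p.z ^ 2) ≤ 1 := by
    nlinarith [sq_nonneg p.y, sq_nonneg p.z]
  have h3 : δ ≤ |p.x - p.y * p.z| := by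
    have hsq : |p.x - p.y * p.z| ^ 2 = (p.x - p.y * p.z) ^ 2 := sq_abs _
    by_contra hcon
    rw [not_le] at hcon
    nlinarith [abs_nonneg (p.x - p.y * p.z)]
  have h4 : |p.x - p.y * p.z| ≤ δ + 1 := by
    apply abs_le_of_sq_le_sq
    · rw [e]; nlinarith
    · linarith
  have h5 := abs_sub_abs_le_abs_sub (p.x) (p.y * p.z)
  have h6 : |p.x - p.y * p.z| ≤ |p.x| + |p.y * p.z| := abs_sub _ _
  have h7 : |p.x| ≤ |p.x - p.y * p.z| + |p.y * p.z| := by
    have := abs_add_le (p.x - p.y * p.z) (p.y * p.z)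
    simpa using this
  constructor <;> linarith

lemma cc_bds {δ : ℝ} (hδ : 5 * 10 ^ 7 ≤ δ) : δ < cc δ ∧ cc δ < δ + 1 := by
  have h1 := cc_sq δ
  have h2 := cc_pos δ
  constructor
  · by_contra hcon
    rw [not_lt] at hcon
    nlinarith
  · by_contra hcon
    rw [not_lt] at hcon
    nlinarith

/-- opposite signs at the ends of a cluster -/
lemma opp {δ A A' X X' R R' : ℝ} (hδ : 5 * 10 ^ 7 ≤ δ) (hR : |R| ≤ 3) (hR' : |R'| ≤ 3)
    (hA : (A ≤ -(1 / 1000) ∧ 1 / 1000 ≤ A') ∨ (1 / 1000 ≤ A ∧ A' ≤ -(1 / 1000)))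
    (hX : (δ - 1 ≤ X ∧ δ - 1 ≤ X') ∨ (X ≤ -(δ - 1) ∧ X' ≤ -(δ - 1))) :
    (A * X - R < -1 ∧ 1 < A' * X' - R') ∨ (1 < A * X - R ∧ A' * X' - R' < -1) := by
  have h1 := abs_le.1 hR
  have h2 := abs_le.1 hR'
  rcases hA with ⟨a1, a2⟩ | ⟨a1, a2⟩ <;> rcases hX with ⟨x1, x2⟩ | ⟨x1, x2⟩
  · left; constructor <;> nlinarith
  · right; constructor <;> nlinarith
  · right; constructor <;> nlinarith
  · left; constructor <;> nlinarith

lemma cont_y (lam : ℝ) (d : ℕ → ℕ) (m : ℕ) : Continuous fun e => (orb d (lin lam e) m).y := by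
  have h := cont_toL_y ((cont_orb d m).comp (cont_lin lam))
  simpa only [Function.comp_def, ofL_toL] using h

lemma cont_x (lam : ℝ) (d : ℕ → ℕ) (m : ℕ) : Continuous fun e => (orb d (lin lam e) m).x := by
  have h := cont_toL_x ((cont_orb d m).comp (cont_lin lam))
  simpa only [Function.comp_def, ofL_toL] using h

/-- a continuous function with `|x| ≥ a > 0` has constant sign -/
lemma const_sign {f : ℝ → ℝ} {u v a : ℝ} (hf : Continuous f) (ha : 0 < a)
    (h : ∀ e ∈ Icc u v, a ≤ |f e|) :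
    (∀ e ∈ Icc u v, a ≤ f e) ∨ (∀ e ∈ Icc u v, f e ≤ -a) := by
  by_contra hcon
  rw [not_or] at hcon
  obtain ⟨h1, h2⟩ := hcon
  simp only [not_forall, not_le] at h1 h2
  obtain ⟨e1, he1, h1⟩ := h1
  obtain ⟨e2, he2, h2⟩ := h2
  have g1 : f e1 < 0 := by
    rcases abs_choice (f e1) with hc | hc
    · have := h e1 he1; rw [hc] at this; linarith
    · have := h e1 he1; rw [hc] at this; linarith
  have g2 : 0 < f e2 := by
    rcases abs_choice (f e2) with hc | hc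
    · have := h e2 he2; rw [hc] at this; linarith
    · have := h e2 he2; rw [hc] at this; linarith
  obtain ⟨e3, he3, h3⟩ := isPreconnected_Icc.intermediate_value he1 he2 hf.continuousOn
    ⟨g1.le, g2.le⟩
  have := h e3 he3
  rw [h3, abs_zero] at this
  linarith

/-- bounds for `A X - R` -/
lemma lin_bd {a b A X R N M r : ℝ} (hA : a ≤ |A|) (hA' : |A| ≤ b) (hX : N ≤ |X|) (hX' : |X| ≤ M)
    (hR : |R| ≤ r) (ha : 0 ≤ a) (hN : 0 ≤ N) : a * N - r ≤ |A * X - R| ∧ |A * X - R| ≤ b * M + r := by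
  have h1 : |A * X| = |A| * |X| := abs_mul _ _
  have h2 := abs_sub_abs_le_abs_sub (A * X) R
  have h3 : |A * X - R| ≤ |A * X| + |R| := abs_sub _ _
  have h4 : a * N ≤ |A| * |X| := mul_le_mul hA hX hN (abs_nonneg _)
  have h5 : |A| * |X| ≤ b * M := mul_le_mul hA' hX' (abs_nonneg _) (le_trans (abs_nonneg _) hA')
  constructor <;> linarith

/-- polynomial facts at the true clusters -/
structure TC (q : ℝ) : Prop where
  lo : ∀ s : ℝ, |s - q| ≤ 1 / 2000 → 99 / 100 ≤ |4 * s ^ 2 - 1|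
  up : ∀ s : ℝ, |s - q| ≤ 1 / 2000 → |4 * s ^ 2 - 1| ≤ 101 / 100
  sm : ∀ s : ℝ, |s - q| ≤ 1 / 2000 → |8 * s ^ 3 - 4 * s| ≤ 1 / 100
  en : (8 * (q - 1 / 2000) ^ 3 - 4 * (q - 1 / 2000) ≤ -(1 / 1000) ∧
      1 / 1000 ≤ 8 * (q + 1 / 2000) ^ 3 - 4 * (q + 1 / 2000)) ∨
    (1 / 1000 ≤ 8 * (q - 1 / 2000) ^ 3 - 4 * (q - 1 / 2000) ∧
      8 * (q + 1 / 2000) ^ 3 - 4 * (q + 1 / 2000) ≤ -(1 / 1000))

lemma tc0 : TC 0 := by
  refine ⟨?_, ?_, ?_, ?_⟩
  · intro s hs
    rw [sub_zero] at hs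
    have h := abs_le.1 hs
    have h2 : s ^ 2 ≤ 1 / 4000000 := by nlinarith
    rw [abs_of_nonpos (by linarith)]
    linarith
  · intro s hs
    rw [sub_zero] at hs
    have h := abs_le.1 hs
    have h2 : s ^ 2 ≤ 1 / 4000000 := by nlinarith
    rw [abs_of_nonpos (by linarith)]
    nlinarith [sq_nonneg s]
  · intro s hs
    rw [sub_zero] at hs
    have h := abs_le.1 hs
    have h2 : s ^ 2 ≤ 1 / 4000000 := by nlinarith
    have e : 8 * s ^ 3 - 4 * s = s * (8 * s ^ 2 - 4) := by ring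
    have h3 : |8 * s ^ 2 - 4| ≤ 4 := by
      rw [abs_le]; constructor <;> nlinarith [sq_nonneg s]
    rw [e, abs_mul]
    nlinarith [abs_nonneg s, abs_nonneg (8 * s ^ 2 - 4)]
  · right; norm_num

lemma tcp {q : ℝ} (hq : q = 7071 / 10000 ∨ q = -(7071 / 10000)) : TC q := by
  have key : ∀ s : ℝ, |s - q| ≤ 1 / 2000 → -(3 / 2000) ≤ 2 * s ^ 2 - 1 ∧
      2 * s ^ 2 - 1 ≤ 3 / 2000 ∧ |s| ≤ 1 := by
    intro s hs
    have h := abs_le.1 hs
    rcases hq with rfl | rfl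
    · refine ⟨by nlinarith, by nlinarith, ?_⟩
      rw [abs_le]; constructor <;> linarith
    · refine ⟨by nlinarith, by nlinarith, ?_⟩
      rw [abs_le]; constructor <;> linarith
  refine ⟨?_, ?_, ?_, ?_⟩
  · intro s hs
    obtain ⟨h1, h2, _⟩ := key s hs
    rw [abs_of_nonneg (by linarith)]
    linarith
  · intro s hs
    obtain ⟨h1, h2, _⟩ := key s hs
    rw [abs_of_nonneg (by linarith)]
    linarith
  · intro s hs
    obtain ⟨h1, h2, h3⟩ := key s hs
    have e : 8 * s ^ 3 - 4 * s = 4 * s * (2 * s ^ 2 - 1) := by ring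
    have h4 : |2 * s ^ 2 - 1| ≤ 3 / 2000 := abs_le.2 ⟨by linarith, h2⟩
    have h5 : |4 * s| ≤ 4 := by rw [abs_mul]; norm_num; exact h3
    rw [e, abs_mul]
    nlinarith [abs_nonneg (4 * s), abs_nonneg (2 * s ^ 2 - 1)]
  · rcases hq with rfl | rfl
    · left; norm_num
    · left; norm_num

section

variable {lam : ℝ} {d : ℕ → ℕ} {m : ℕ} {u v : ℝ}

lemma half_big (hL : Big lam) : 5 * 10 ^ 7 ≤ lam / 2 := by
  unfold Big at hL; linarith

/-- the sign of `x` -/
lemma xs (hL : Big lam) (hN : IsNode lam d m (u, v, false)) :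
    (∀ e ∈ seg (u, v, false), lam / 2 - 1 ≤ (orb d (lin lam e) m).x) ∨
      (∀ e ∈ seg (u, v, false), (orb d (lin lam e) m).x ≤ -(lam / 2 - 1)) := by
  have hδ := half_big hL
  refine const_sign (cont_x lam d m) (by linarith) fun e he => ?_
  exact (x_size hδ ((onS_lin lam e).orb d m) (hN.y1 e he) (hN.t3 rfl e he)).1

lemma q2_abs {q : ℝ} (hq : q ^ 2 = 1 / 4) : |q| = 1 / 2 := by
  have : |q| ^ 2 = (1 / 2) ^ 2 := by rw [sq_abs, hq]; norm_num
  exact (sq_eq_sq₀ (abs_nonneg _) (by norm_num)).1 this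

lemma fchild (ha : TKA) (hL : Big lam) (hd : ∀ k, 1 ≤ d k) (hm : d m = 3)
    (hN : IsNode lam d m (u, v, false)) {q : ℝ} (hq : q ^ 2 = 1 / 4) :
    ∃ C : Nod, C.2.2 = false ∧ IsNode lam d (m + 1) C ∧ seg C ⊆ seg (u, v, false) ∧
    (∀ e ∈ seg C, |(orb d (lin lam e) m).y - q| ≤ 1 / 2000) ∧
    ∀ e ∈ seg (u, v, false), |(orb d (lin lam e) m).y - q| ≤ 1 / 2000 →
      |(orb d (lin lam e) (m + 1)).y| ≤ 1 → e ∈ seg C := by
  have hδ := half_big hL
  have hc := cc_bds hδ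
  have hqa := q2_abs hq
  have hqb := abs_le.1 hqa.le
  have hR : ∀ e ∈ seg (u, v, false), |2 * (orb d (lin lam e) m).y * (orb d (lin lam e) m).z| ≤ 2 := by
    intro e he
    have h1 := hN.y1 e he
    have h2 := hN.t3 rfl e he
    rw [abs_mul, abs_mul]
    norm_num
    nlinarith [abs_nonneg (orb d (lin lam e) m).y, abs_nonneg (orb d (lin lam e) m).z]
  refine ha lam d m (u, v, false) q hL hd hN (by rw [hqa]; norm_num) ?_ ?_
  · intro e he hs
    rw [y_succ _ hm]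
    set s := (orb d (lin lam e) m).y with hsd
    have hb := abs_le.1 hs
    have h4 : |4 * s ^ 2 - 1| ≤ 1 / 100 := by
      have e1 : 4 * s ^ 2 - 1 = 4 * (s - q) ^ 2 + 8 * q * (s - q) := by
        linear_combination 4 * hq
      rw [e1, abs_le]
      constructor <;> nlinarith
    obtain ⟨hx1, hx2⟩ := x_size hδ ((onS_lin lam e).orb d m) (hN.y1 e he) (hN.t3 rfl e he)
    have h5 := (lin_bd (a := 0) (N := 0) (abs_nonneg _) h4 (abs_nonneg _) hx2 (hR e he) le_rfl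
      le_rfl).2
    linarith [hc.1]
  · intro e he e' he' h1 h2
    rw [y_succ _ hm, y_succ _ hm]
    refine opp hδ ((hR e he).trans (by norm_num)) ((hR e' he').trans (by norm_num)) ?_ ?_
    · rw [h1, h2]
      have hq' : q = 1 / 2 ∨ q = -(1 / 2) := by
        rcases abs_choice q with h | h
        · left; rw [← h]; exact hqa
        · right; rw [h] at hqa; linarith
      rcases hq' with rfl | rfl
      · left; norm_num
      · right; norm_num
    · rcases xs hL hN with h | h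
      · left; exact ⟨h e he, h e' he'⟩
      · right; exact ⟨h e he, h e' he'⟩

lemma tchild (hb : TKB) (hL : Big lam) (hd : ∀ k, 1 ≤ d k) (hm : d m = 3) (hm1 : d (m + 1) = 3)
    (hN : IsNode lam d m (u, v, false)) {q : ℝ} (hq : TC q) (hq1 : |q| + 1 / 2000 < 1) :
    ∃ C : Nod, C.2.2 = true ∧ IsNode lam d (m + 2) C ∧ seg C ⊆ seg (u, v, false) ∧
    (∀ e ∈ seg C, |(orb d (lin lam e) m).y - q| ≤ 1 / 2000) ∧
    ∀ e ∈ seg (u, v, false), |(orb d (lin lam e) m).y - q| ≤ 1 / 2000 →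
      |(orb d (lin lam e) (m + 2)).y| ≤ 1 → e ∈ seg C := by
  have hδ := half_big hL
  have hc := cc_bds hδ
  have hR : ∀ e ∈ seg (u, v, false), |2 * (orb d (lin lam e) m).y * (orb d (lin lam e) m).z| ≤ 2 := by
    intro e he
    have h1 := hN.y1 e he
    have h2 := hN.t3 rfl e he
    rw [abs_mul, abs_mul]
    norm_num
    nlinarith [abs_nonneg (orb d (lin lam e) m).y, abs_nonneg (orb d (lin lam e) m).z]
  have hR2 : ∀ e ∈ seg (u, v, false),
      |(4 * (orb d (lin lam e) m).y ^ 2 - 1) * (orb d (lin lam e) m).z| ≤ 3 := by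
    intro e he
    have h1 := hN.y1 e he
    have h2 := hN.t3 rfl e he
    have h3 : |4 * (orb d (lin lam e) m).y ^ 2 - 1| ≤ 3 := by
      have h4 : (orb d (lin lam e) m).y ^ 2 ≤ 1 := by
        rw [← sq_abs]; nlinarith [abs_nonneg (orb d (lin lam e) m).y]
      rw [abs_le]; constructor <;> nlinarith [sq_nonneg (orb d (lin lam e) m).y]
    rw [abs_mul]
    nlinarith [abs_nonneg (4 * (orb d (lin lam e) m).y ^ 2 - 1),
      abs_nonneg (orb d (lin lam e) m).z]
  refine hb lam d m (u, v, false) q hL hd hm1 hN hq1 ?_ ?_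
  · intro e he hs
    rw [y_succ _ hm, x_succ _ hm]
    obtain ⟨hx1, hx2⟩ := x_size hδ ((onS_lin lam e).orb d m) (hN.y1 e he) (hN.t3 rfl e he)
    have h5 := lin_bd (hq.lo _ hs) (hq.up _ hs) hx1 hx2 (hR e he) (by norm_num) (by linarith)
    have h6 := (lin_bd (a := 0) (N := 0) (abs_nonneg _) (hq.sm _ hs) (abs_nonneg _) hx2 (hR2 e he)
      le_rfl le_rfl).2
    refine ⟨?_, ?_, ?_⟩
    · linarith [hc.2, h5.1]
    · linarith [hc.1, h5.2]
    · linarith [hc.1]
  · intro e he e' he' h1 h2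
    have hX : ((lam / 2 - 1 ≤ (orb d (lin lam e) m).x ∧ lam / 2 - 1 ≤ (orb d (lin lam e') m).x) ∨
        ((orb d (lin lam e) m).x ≤ -(lam / 2 - 1) ∧
          (orb d (lin lam e') m).x ≤ -(lam / 2 - 1))) := by
      rcases xs hL hN with h | h
      · left; exact ⟨h e he, h e' he'⟩
      · right; exact ⟨h e he, h e' he'⟩
    have hopp := opp (A := 8 * (orb d (lin lam e) m).y ^ 3 - 4 * (orb d (lin lam e) m).y)
      (A' := 8 * (orb d (lin lam e') m).y ^ 3 - 4 * (orb d (lin lam e') m).y)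
      hδ (hR2 e he) (hR2 e' he') (by rw [h1, h2]; exact hq.en) hX
    rw [x_succ _ hm, x_succ _ hm]
    rcases hopp with ⟨g1, g2⟩ | ⟨g1, g2⟩
    · left; constructor <;> linarith
    · right; constructor <;> linarith

/-- points of the spectrum in the node lie in clusters -/
lemma cover3 (hs : TSq) (hL : Big lam) (hm : d m = 3) (hm1 : d (m + 1) = 3)
    (hN : IsNode lam d m (u, v, false)) {e : ℝ} (he : e ∈ Sp lam d)
    (he' : e ∈ seg (u, v, false)) :
    (|(orb d (lin lam e) (m + 1)).y| ≤ 1 ∧ (|(orb d (lin lam e) m).y - 1 / 2| ≤ 1 / 2000 ∨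
      |(orb d (lin lam e) m).y - -(1 / 2)| ≤ 1 / 2000)) ∨
    (|(orb d (lin lam e) (m + 2)).y| ≤ 1 ∧ (|(orb d (lin lam e) m).y - 0| ≤ 1 / 2000 ∨
      |(orb d (lin lam e) m).y - 7071 / 10000| ≤ 1 / 2000 ∨
      |(orb d (lin lam e) m).y - -(7071 / 10000)| ≤ 1 / 2000)) := by
  have hδ := half_big hL
  have hy1 := hN.y1 e he'
  have hz1 := hN.t3 rfl e he'
  obtain ⟨hx1, hx2⟩ := x_size hδ ((onS_lin lam e).orb d m) hy1 hz1
  have hys := y_succ (lin lam e) hm
  have hxs := x_succ (lin lam e) hm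
  by_cases hy : |(orb d (lin lam e) (m + 1)).y| ≤ 1
  · left
    refine ⟨hy, ?_⟩
    rw [hys] at hy
    set s := (orb d (lin lam e) m).y with hsd
    set z := (orb d (lin lam e) m).z with hzd
    set x := (orb d (lin lam e) m).x with hxd
    have h1 : |2 * s * z| ≤ 2 := by
      rw [abs_mul, abs_mul]
      norm_num
      nlinarith [abs_nonneg s, abs_nonneg z]
    have h2 : |4 * s ^ 2 - 1| * |x| ≤ 3 := by
      rw [← abs_mul]
      have := abs_sub_abs_le_abs_sub ((4 * s ^ 2 - 1) * x) (2 * s * z)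
      linarith
    have h3 : |4 * s ^ 2 - 1| ≤ 1 / 10 ^ 6 := by
      rw [le_div_iff₀ (by norm_num)]
      nlinarith [abs_nonneg (4 * s ^ 2 - 1)]
    have h4 := abs_le.1 h3
    rcases le_total 0 s with h | h
    · left
      rw [abs_le]
      constructor <;> nlinarith
    · right
      rw [abs_le]
      constructor <;> nlinarith
  · right
    have hsp : |(orb d (lin lam e) (m + 2)).y| ≤ 1 := by
      rcases he (m + 1) with h | h
      · exact absurd h hy
      · exact h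
    refine ⟨hsp, ?_⟩
    rw [not_le] at hy
    have h3 := hs (lam / 2) (orb d (lin lam e) (m + 1)) (by linarith)
      ((onS_lin lam e).orb d (m + 1)) (by rw [orb_succ_z]; exact hy1) hy (by
        have : (orb d (lin lam e) (m + 2)).y = (stepR^[3] (orb d (lin lam e) (m + 1))).z := by
          rw [orb_succ_y, hm1]; rfl
        rw [← this]; exact hsp)
    have h4 := h3.1
    rw [hxs] at h4
    set s := (orb d (lin lam e) m).y with hsd
    set z := (orb d (lin lam e) m).z with hzd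
    set x := (orb d (lin lam e) m).x with hxd
    have hs2 : s ^ 2 ≤ 1 := by rw [← sq_abs]; nlinarith [abs_nonneg s]
    have h5 : |(4 * s ^ 2 - 1) * z| ≤ 3 := by
      have h6 : |4 * s ^ 2 - 1| ≤ 3 := by
        rw [abs_le]; constructor <;> nlinarith [sq_nonneg s]
      rw [abs_mul]
      nlinarith [abs_nonneg (4 * s ^ 2 - 1), abs_nonneg z]
    have h7 : |8 * s ^ 3 - 4 * s| * |x| ≤ 4 := by
      rw [← abs_mul]
      have := abs_sub_abs_le_abs_sub ((8 * s ^ 3 - 4 * s) * x) ((4 * s ^ 2 - 1) * z)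
      linarith
    have h8 : |8 * s ^ 3 - 4 * s| ≤ 1 / 10 ^ 6 := by
      rw [le_div_iff₀ (by norm_num)]
      nlinarith [abs_nonneg (8 * s ^ 3 - 4 * s)]
    by_cases hsm : |s| ≤ 1 / 2000
    · left; rw [sub_zero]; exact hsm
    · right
      rw [not_le] at hsm
      have e1 : 8 * s ^ 3 - 4 * s = 4 * s * (2 * s ^ 2 - 1) := by ring
      rw [e1, abs_mul, abs_mul] at h8
      have h9 : |2 * s ^ 2 - 1| ≤ 1 / 2000 := by
        norm_num at h8
        by_contra hcon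
        rw [not_le] at hcon
        nlinarith [abs_nonneg s]
      have h10 := abs_le.1 h9
      rcases le_total 0 s with h | h
      · left
        rw [abs_le]
        constructor <;> nlinarith
      · right
        rw [abs_le]
        constructor <;> nlinarith

end

theorem ch3 (hs : TSq) (ha : TKA) (hb : TKB) (hc : TKC) : TCH3 := by
  intro lam d m u v hL hd hm hm1 hN
  obtain ⟨C1, t1, n1, s1, c1, k1⟩ := tchild hb hL hd hm hm1 hN
    (tcp (q := -(7071 / 10000)) (Or.inr rfl)) (by rw [abs_neg, abs_of_pos] <;> norm_num)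
  obtain ⟨C2, t2, n2, s2, c2, k2⟩ := fchild ha hL hd hm hN (q := -(1 / 2)) (by norm_num)
  obtain ⟨C3, t3, n3, s3, c3, k3⟩ := tchild hb hL hd hm hm1 hN tc0 (by norm_num)
  obtain ⟨C4, t4, n4, s4, c4, k4⟩ := fchild ha hL hd hm hN (q := 1 / 2) (by norm_num)
  obtain ⟨C5, t5, n5, s5, c5, k5⟩ := tchild hb hL hd hm hm1 hN
    (tcp (q := 7071 / 10000) (Or.inl rfl)) (by rw [abs_of_pos] <;> norm_num)
  refine hc lam d m (u, v, false) 5 ![-(7071 / 10000), -(1 / 2), 0, 1 / 2, 7071 / 10000]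
    ![(m + 2, C1), (m + 1, C2), (m + 2, C3), (m + 1, C4), (m + 2, C5)] hL hd hN ?_ ?_ ?_ ?_ ?_
  · intro i j hij
    fin_cases i <;> fin_cases j <;>
      first
      | exact absurd rfl hij
      | (simp [abs_le, le_abs]; norm_num)
  · intro i
    fin_cases i
    · exact ⟨by simp, n1, s1, c1⟩
    · exact ⟨by simp, n2, s2, c2⟩
    · exact ⟨by simp, n3, s3, c3⟩
    · exact ⟨by simp, n4, s4, c4⟩
    · exact ⟨by simp, n5, s5, c5⟩
  · intro e he he'
    rcases cover3 hs hL hm hm1 hN he he' with ⟨h1, h2 | h2⟩ | ⟨h1, h2 | h2 | h2⟩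
    · exact ⟨3, k4 e he' h2 h1⟩
    · exact ⟨1, k2 e he' h2 h1⟩
    · exact ⟨2, k3 e he' h2 h1⟩
    · exact ⟨4, k5 e he' h2 h1⟩
    · exact ⟨0, k1 e he' h2 h1⟩
  · have e : (Finset.univ.filter (fun i : Fin 5 =>
        ((![(m + 2, C1), (m + 1, C2), (m + 2, C3), (m + 1, C4), (m + 2, C5)] :
          Fin 5 → ℕ × Nod) i).2.2.2 = true)) = {0, 2, 4} := by
      ext i
      fin_cases i <;> simp [t1, t2, t3, t4, t5]
    rw [e]
    rfl
  · have e : (Finset.univ.filter (fun i : Fin 5 =>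
        ((![(m + 2, C1), (m + 1, C2), (m + 2, C3), (m + 1, C4), (m + 2, C5)] :
          Fin 5 → ℕ × Nod) i).2.2.2 = false)) = {1, 3} := by
      ext i
      fin_cases i <;> simp [t1, t2, t3, t4, t5]
    rw [e]
    rfl

end Pool.Agent.W196.Nd
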