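import Pool.Agent.W811.Nd.Stm

/-! ND-SQ and ND-CH3. -/

set_option autoImplicit false

open Set Pool.Agent.W811.Stu Pool.Agent.W811.Nd

namespace Pool.Agent.W196.Nd

/-- the algebraic squeeze estimate -/
lemma squeeze {δ Y t0 t1 t2 t3 : ℝ} (hδ : 10 ^ 7 ≤ δ) (h2 : t2 = 2 * Y * t1 - t0)
    (h3 : t3 = 2 * Y * t2 - t1) (hS : t0 ^ 2 + t1 ^ 2 - 2 * Y * t0 * t1 = 1 + δ ^ 2 - Y ^ 2)
    (h0 : |t0| ≤ 1) (hY : 1 < |Y|) (h3' : |t3| ≤ 1) :
    |t1| ≤ 1 / 10 ^ 6 ∧ |t2| ≤ 1 / 10 ^ 6 ∧ |Y ^ 2 - (1 + δ ^ 2)| ≤ 1 := by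
  have e1 : 2 * |Y| * |t1| ≤ |t0| + |t2| := by
    have : 2 * Y * t1 = t0 + t2 := by linarith
    calc 2 * |Y| * |t1| = |2 * Y * t1| := by rw [abs_mul, abs_mul]; norm_num
      _ = |t0 + t2| := by rw [this]
      _ ≤ |t0| + |t2| := abs_add_le _ _
  have e2 : 2 * |Y| * |t2| ≤ |t1| + |t3| := by
    have : 2 * Y * t2 = t1 + t3 := by linarith
    calc 2 * |Y| * |t2| = |2 * Y * t2| := by rw [abs_mul, abs_mul]; norm_num
      _ = |t1 + t3| := by rw [this]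
      _ ≤ |t1| + |t3| := abs_add_le _ _
  have a1 := abs_nonneg t1
  have a2 := abs_nonneg t2
  have f1 : 2 * |t1| ≤ 1 + |t2| := by nlinarith
  have f2 : 2 * |t2| ≤ |t1| + 1 := by nlinarith
  have g1 : |t1| ≤ 1 := by linarith
  have g2 : |t2| ≤ 1 := by linarith
  have e3 : 1 + δ ^ 2 - Y ^ 2 = t1 ^ 2 - t0 * t2 := by
    have : 2 * Y * t1 = t0 + t2 := by linarith
    rw [← hS]
    linear_combination -t0 * this
  have e4 : |t0 * t2| ≤ 1 := by
    rw [abs_mul]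
    nlinarith [abs_nonneg t0]
  have e5 := abs_le.1 e4
  have e6 : t1 ^ 2 ≤ 1 := by
    rw [← sq_abs]; nlinarith
  have e7 : 0 ≤ t1 ^ 2 := sq_nonneg _
  have hYd : δ - 1 ≤ |Y| := by
    have : Y ^ 2 = |Y| ^ 2 := (sq_abs Y).symm
    by_contra hcon
    rw [not_le] at hcon
    nlinarith [abs_nonneg Y]
  have hYb : (10 : ℝ) ^ 7 - 1 ≤ |Y| := by linarith
  have g1' : |t1| ≤ 1 / 10 ^ 6 := by
    rw [le_div_iff₀ (by norm_num)]
    nlinarith
  have g2' : |t2| ≤ 1 / 10 ^ 6 := by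
    rw [le_div_iff₀ (by norm_num)]
    nlinarith
  refine ⟨g1', g2', ?_⟩
  have e8 : |t0 * t2| ≤ 1 / 10 ^ 6 := by
    rw [abs_mul]
    nlinarith [abs_nonneg t0]
  have e9 := abs_le.1 e8
  have e10 : t1 ^ 2 ≤ 1 / 10 ^ 6 := by
    rw [← sq_abs]; nlinarith
  rw [abs_le]
  constructor
  · linarith [e9.1]
  · linarith [e9.2]

theorem sq : TSq := by
  intro δ p hδ hS hz hy h3
  have h := squeeze (δ := δ) (Y := p.y) (t0 := p.z) (t1 := p.x)
    (t2 := (stepR^[2] p).z) (t3 := (stepR^[3] p).z) hδ (by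
      simp only [Function.iterate_succ, Function.iterate_zero, Function.comp, stepR, id]
      ring) (by
      simp only [Function.iterate_succ, Function.iterate_zero, Function.comp, stepR, id]
      ring) (by
      unfold OnS at hS
      linear_combination hS) hz hy h3
  rw [cc_sq]
  exact h

end Pool.Agent.W196.Nd
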